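import Pool.Agent.Helper35.PI.St3

/-!
Module PL of project PI: planarity on a time interval.
-/

namespace Helper5.PI

open scoped ContDiff Manifold Topology ENNReal BigOperators
open MeasureTheory Set Filter
open Helper35.PI

/-- Differentiability of the flow in a chart at fixed time. -/
lemma diffAt_loc (hI2 : StI2) {n N : ℕ} {M : Type} [TopologicalSpace M] [ChartedSpace (EE n) M]
    [IsManifold (𝓡 n) ∞ M] {F : M → ℝ → EE N} (hF : IsMCF (n := n) F) (p₀ : M) {t : ℝ}
    (ht : t < 0) {y : EE n} (hy : y ∈ (chartAt (EE n) p₀).target) :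
    DifferentiableAt ℝ (loc (n := n) F p₀ t) y := by
  have h := hI2 n N M F hF p₀
  have ho : IsOpen ((chartAt (EE n) p₀).target ×ˢ Iio (0 : ℝ)) :=
    (chartAt (EE n) p₀).open_target.prod isOpen_Iio
  have h1 : ContDiffAt ℝ ∞ (fun z : EE n × ℝ => F ((chartAt (EE n) p₀).symm z.1) z.2) (y, t) :=
    h.contDiffAt (ho.mem_nhds ⟨hy, ht⟩)
  have h2 : DifferentiableAt ℝ
      (fun z : EE n × ℝ => F ((chartAt (EE n) p₀).symm z.1) z.2) (y, t) :=
    h1.differentiableAt (by simp)
  have h3 : DifferentiableAt ℝ (fun y : EE n => (y, t)) y :=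
    differentiableAt_id.prodMk (differentiableAt_const t)
  exact DifferentiableAt.comp (g := fun z : EE n × ℝ => F ((chartAt (EE n) p₀).symm z.1) z.2)
    (f := fun y : EE n => (y, t)) y h2 h3

lemma fderiv_eq_zero_of_ee {n : ℕ} {A : EE n →L[ℝ] ℝ} (h : ∀ i, A (ee i) = 0) : A = 0 := by
  ext x
  have hx : x = ∑ i, x i • (ee i : EE n) := by
    ext j
    simp [ee, Finset.sum_apply, Pi.single_apply]
  rw [hx, map_sum]
  simp [h]

/-- planarity on a time interval -/
theorem hPL (hPO : StPO) (hPA : StPA) (hPB : StPB) (hI2 : StI2) (hI3 : StI3) : StPL := by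
  intro n N hn M _ _ _ _ F hF J hJo hJc hJne hJ0 hJ
  obtain ⟨t₀, ht₀⟩ := hJne
  have hp₀ : Nonempty M := inferInstance
  obtain ⟨p₀⟩ := hp₀
  -- the constant subspace
  have hWsp : ∀ t ∈ J, ∀ p q : M, WS n F p t = WS n F q t := by
    intro t ht
    exact hPA n N hn M F hF t (hJ0 ht) (hJ t ht)
  have hWt : ∀ t ∈ J, ∀ t' ∈ J, ∀ p : M, WS n F p t = WS n F p t' :=
    hPB n N hn M F hF J hJo hJc hJ0 (fun t ht p => (hJ t ht p).1) hWsp
  have hW : ∀ t ∈ J, ∀ p : M, WS n F p t = WS n F p₀ t₀ := by
    intro t ht p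
    rw [hWsp t ht p p₀, hWt t ht t₀ ht₀ p₀]
  set V : Submodule ℝ (EE N) := WS n F p₀ t₀ with hV
  -- dimension
  have hfin : Module.finrank ℝ V = n + 1 := by
    have hHT : HH (n := n) F p₀ t₀ ∉ TS (n := n) F p₀ t₀ := by
      intro hmem
      have h := (hPO n N hn M F hF p₀ t₀ (hJ0 ht₀)).2.2.2.2.2 _ hmem
      rw [inner_self_eq_zero] at h
      exact (hJ t₀ ht₀ p₀).1 h
    have hT : Module.finrank ℝ (TS (n := n) F p₀ t₀) = n := by
      exact (finrank_span_eq_card (hF.imm p₀ t₀ (hJ0 ht₀))).trans (Fintype.card_fin n)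
    have hdisj : Disjoint (TS (n := n) F p₀ t₀) (Submodule.span ℝ {HH (n := n) F p₀ t₀}) := by
      rw [Submodule.disjoint_span_singleton']
      · exact hHT
      · exact (hJ t₀ ht₀ p₀).1
    have h1 := Submodule.finrank_sup_add_finrank_inf_eq (TS (n := n) F p₀ t₀)
      (Submodule.span ℝ {HH (n := n) F p₀ t₀})
    rw [hdisj.eq_bot, finrank_bot, finrank_span_singleton (hJ t₀ ht₀ p₀).1, hT, add_zero] at h1
    exact h1
  -- constancy of inner products with normals
  have hconst : ∀ v ∈ Vᗮ, ∀ t ∈ J, ∀ p : M,
      (inner ℝ v (F p t) : ℝ) = inner ℝ v (F p₀ t₀) := by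
    intro v hv
    have hperp : ∀ w ∈ V, (inner ℝ v w : ℝ) = 0 := fun w hw =>
      Submodule.inner_left_of_mem_orthogonal hw hv
    -- time direction
    have htime : ∀ p : M, ∀ t ∈ J, (inner ℝ v (F p t) : ℝ) = inner ℝ v (F p t₀) := by
      intro p t ht
      have hd : ∀ s ∈ J, HasDerivAt (fun s => (inner ℝ v (F p s) : ℝ)) 0 s := by
        intro s hs
        have h1 := (hF.flow p s (hJ0 hs))
        have h2 : HasDerivAt (fun s => (inner ℝ v (F p s) : ℝ))
            (inner ℝ v (HH (n := n) F p s)) s := by
          simpa using (hasDerivAt_const s v).inner ℝ h1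
        have h3 : (inner ℝ v (HH (n := n) F p s) : ℝ) = 0 := by
          apply hperp
          rw [← hW s hs p]
          exact Submodule.mem_sup_right (Submodule.mem_span_singleton_self _)
        rwa [h3] at h2
      have hdiff : DifferentiableOn ℝ (fun s => (inner ℝ v (F p s) : ℝ)) J := fun s hs =>
        (hd s hs).differentiableAt.differentiableWithinAt
      exact hJo.is_const_of_deriv_eq_zero hJc hdiff (fun s hs => (hd s hs).deriv) ht ht₀
    -- space direction
    have hspace : ∀ p : M, (inner ℝ v (F p t₀) : ℝ) = inner ℝ v (F p₀ t₀) := by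
      have hloc : IsLocallyConstant (fun p : M => (inner ℝ v (F p t₀) : ℝ)) := by
        rw [IsLocallyConstant.iff_eventually_eq]
        intro p
        set c := chartAt (EE n) p with hc
        have hcp : c p ∈ c.target := mem_chart_target (EE n) p
        obtain ⟨r, hr, hball⟩ := Metric.isOpen_iff.1 c.open_target (c p) hcp
        have hcst : ∀ y ∈ Metric.ball (c p) r,
            (inner ℝ v (loc (n := n) F p t₀ y) : ℝ) = inner ℝ v (loc (n := n) F p t₀ (c p)) := by
          intro y hy
          have hdiff : DifferentiableOn ℝ (fun y => (inner ℝ v (loc (n := n) F p t₀ y) : ℝ))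
              (Metric.ball (c p) r) := by
            intro z hz
            exact ((differentiableAt_const v).inner ℝ
              (diffAt_loc hI2 hF p (hJ0 ht₀) (hball hz))).differentiableWithinAt
          refine Metric.isOpen_ball.is_const_of_fderiv_eq_zero
            (convex_ball _ _).isPreconnected hdiff ?_ hy (Metric.mem_ball_self hr)
          intro z hz
          have hz' := hball hz
          have hdz := diffAt_loc hI2 hF p (hJ0 ht₀) hz'
          have hfd : HasFDerivAt (fun y => (inner ℝ v (loc (n := n) F p t₀ y) : ℝ))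
              ((innerSL ℝ v).comp (fderiv ℝ (loc (n := n) F p t₀) z)) z :=
            (innerSL ℝ v).hasFDerivAt.comp z hdz.hasFDerivAt
          rw [hfd.fderiv]
          apply fderiv_eq_zero_of_ee
          intro i
          have hq : c.symm z ∈ c.source := c.map_target hz'
          have hTS := (hI3 n N M F hF p (c.symm z) t₀ (hJ0 ht₀) hq).2.2.2.2
          have hmem : dv1 (loc (n := n) F p t₀) z i ∈ TS (n := n) F (c.symm z) t₀ := by
            rw [hTS, ← hc, c.right_inv hz']
            exact Submodule.subset_span ⟨i, rfl⟩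
          have hmem2 : dv1 (loc (n := n) F p t₀) z i ∈ V := by
            rw [← hW t₀ ht₀ (c.symm z)]
            exact Submodule.mem_sup_left hmem
          have := hperp _ hmem2
          simpa [dv1] using this
        have hnear : ∀ᶠ q in 𝓝 p, c q ∈ Metric.ball (c p) r ∧ q ∈ c.source := by
          have h1 : ∀ᶠ q in 𝓝 p, c q ∈ Metric.ball (c p) r :=
            (c.continuousAt (mem_chart_source (EE n) p)).eventually
              (Metric.ball_mem_nhds _ hr)
          have h2 : ∀ᶠ q in 𝓝 p, q ∈ c.source :=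
            c.open_source.mem_nhds (mem_chart_source (EE n) p)
          exact h1.and h2
        filter_upwards [hnear] with q hq
        have h1 := hcst (c q) hq.1
        have e1 : loc (n := n) F p t₀ (c q) = F q t₀ := by
          simp only [loc, ← hc, c.left_inv hq.2]
        have e2 : loc (n := n) F p t₀ (c p) = F p t₀ := by
          simp only [loc, ← hc, c.left_inv (mem_chart_source (EE n) p)]
        rw [e1, e2] at h1
        exact h1
      intro p
      exact hloc.apply_eq_of_preconnectedSpace p p₀
    intro t ht p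
    rw [htime p t ht, hspace p]
  refine ⟨AffineSubspace.mk' (F p₀ t₀) V, ?_, ?_⟩
  · rw [AffineSubspace.direction_mk']
    exact hfin
  · intro t ht p
    rw [AffineSubspace.mem_mk', vsub_eq_sub]
    have hmem : F p t - F p₀ t₀ ∈ Vᗮᗮ := by
      rw [Submodule.mem_orthogonal]
      intro v hv
      rw [inner_sub_right, hconst v hv t ht p, sub_self]
    rwa [Submodule.orthogonal_orthogonal] at hmem

end Helper5.PI
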